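import Pool.Agent.GTO.StmtsA
import Pool.Agent.Helper38_GTO.Fin

/-! Squad GTO, row CN6: columns fail rarely. -/

namespace Pool.Agent.GTO.H27

open Finset
open scoped Classical

section

variable {ι : Type} [Fintype ι] {a : ι → V}

theorem rot3 (d : Dat ι) : rot (rot (rot d)) = d := rfl

theorem rot_inj {d e : Dat ι} (h : rot d = rot e) : d = e := by
  rw [← rot3 d, ← rot3 e, h]

/-- the good data without step -/
def Bd (a : ι → V) : Set (Dat ι) := {d | Good a d ∧ ¬ ∃ e, Step a d e}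

theorem bd_le (hN : NbrStmt) (hF : FlpStmt) (hU : UnqStmt) (ha : PI a) :
    (Bd a).ncard ≤ EE a := by
  have hfin := H38.finite_dat (ι := ι)
  unfold EE
  rw [← Set.ncard_coe_finset]
  refine Set.ncard_le_ncard_of_injOn (fun d => (d.s, d.w)) ?_ ?_ (Finset.finite_toSet _)
  · intro d hd
    obtain ⟨hg, hn⟩ := hd
    rw [Finset.mem_coe, Finset.mem_filter]
    refine ⟨Finset.mem_univ _, ⟨d, rfl, hg⟩, (hN ι a ha d hg).1, fun h => hn ?_⟩
    exact hF ι a ha d hg h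
  · intro d hd e he h
    obtain ⟨u1, u2, -, -⟩ := hU ι a ha
    have hs : d.s = e.s := congrArg Prod.fst h
    have hw : d.w = e.w := congrArg Prod.snd h
    exact rot_inj (rot_inj (u2 (rot (rot d)) (rot (rot e)) (u1 _ (u1 _ hd.1)) (u1 _ (u1 _ he.1))
      hs hw))

theorem rel_le (R : Dat ι → Dat ι → Prop) (hR : ∀ d d' b, R d b → R d' b → d = d') :
    {d | ∃ b ∈ Bd a, R d b}.ncard ≤ (Bd a).ncard := by
  have hfin := H38.finite_dat (ι := ι)
  have hch : ∀ d : Dat ι, ∃ b, (∃ b ∈ Bd a, R d b) → b ∈ Bd a ∧ R d b := by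
    intro d
    by_cases h : ∃ b ∈ Bd a, R d b
    · obtain ⟨b, hb, h'⟩ := h
      exact ⟨b, fun _ => ⟨hb, h'⟩⟩
    · exact ⟨d, fun h' => absurd h' h⟩
  choose φ hφ using hch
  refine Set.ncard_le_ncard_of_injOn φ (fun d hd => (hφ d hd).1) ?_ (Set.toFinite _)
  intro d hd e he h
  have h2 := (hφ e he).2
  rw [← h] at h2
  exact hR _ _ _ (hφ d hd).2 h2

end

theorem cn6 (hN : NbrStmt) (hF : FlpStmt) (hU : UnqStmt) : Cn6Stmt := by
  intro ι _ a ha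
  have hfin := H38.finite_dat (ι := ι)
  obtain ⟨u1, -, -, u4⟩ := hU ι a ha
  have hB := bd_le hN hF hU ha
  have e1 := rel_le (a := a) (fun d b => rot d = b) (by
    intro d d' b h h'
    exact rot_inj (h.trans h'.symm))
  have e2 := rel_le (a := a) (fun d b => d = b) (by
    intro d d' b h h'
    exact h.trans h'.symm)
  have e3 := rel_le (a := a) (fun d b => Step a d b) u4
  have e4 := rel_le (a := a) (fun d b => ∃ fm, Step a (rot d) fm ∧ rot (rot fm) = b) (by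
    rintro d d' b ⟨f, h1, h2⟩ ⟨f', h3, h4⟩
    have h5 : f = f' := rot_inj (rot_inj (h2.trans h4.symm))
    subst h5
    exact rot_inj (u4 _ _ _ h1 h3))
  have e5 := rel_le (a := a) (fun d b => ∃ g, Step a d g ∧ rot (rot g) = b) (by
    rintro d d' b ⟨f, h1, h2⟩ ⟨f', h3, h4⟩
    have h5 : f = f' := rot_inj (rot_inj (h2.trans h4.symm))
    subst h5
    exact u4 _ _ _ h1 h3)
  have e6 := rel_le (a := a) (fun d b => ∃ g, Step a d g ∧ Step a (rot (rot g)) b) (by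
    rintro d d' b ⟨f, h1, h2⟩ ⟨f', h3, h4⟩
    have h5 : f = f' := rot_inj (rot_inj (u4 _ _ _ h2 h4))
    subst h5
    exact u4 _ _ _ h1 h3)
  obtain ⟨S1, hS1⟩ : ∃ S, S = {d | ∃ b ∈ Bd a, rot d = b} := ⟨_, rfl⟩
  obtain ⟨S2, hS2⟩ : ∃ S, S = {d | ∃ b ∈ Bd a, d = b} := ⟨_, rfl⟩
  obtain ⟨S3, hS3⟩ : ∃ S, S = {d | ∃ b ∈ Bd a, Step a d b} := ⟨_, rfl⟩
  obtain ⟨S4, hS4⟩ : ∃ S, S = {d | ∃ b ∈ Bd a, ∃ fm, Step a (rot d) fm ∧ rot (rot fm) = b} :=
    ⟨_, rfl⟩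
  obtain ⟨S5, hS5⟩ : ∃ S, S = {d | ∃ b ∈ Bd a, ∃ g, Step a d g ∧ rot (rot g) = b} := ⟨_, rfl⟩
  obtain ⟨S6, hS6⟩ : ∃ S, S = {d | ∃ b ∈ Bd a, ∃ g, Step a d g ∧ Step a (rot (rot g)) b} :=
    ⟨_, rfl⟩
  rw [← hS1] at e1
  rw [← hS2] at e2
  rw [← hS3] at e3
  rw [← hS4] at e4
  rw [← hS5] at e5
  rw [← hS6] at e6
  have hsub : {d : Dat ι | Good a d ∧ ¬ ∃ f, Col a d f} ⊆ S1 ∪ (S2 ∪ (S3 ∪ (S4 ∪ (S5 ∪ S6)))) := by
    rintro d ⟨hg, hn⟩
    by_cases c1 : ∃ fm, Step a (rot d) fm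
    · by_cases c2 : ∃ g, Step a d g
      · obtain ⟨fm, hfm⟩ := c1
        obtain ⟨g, hgs⟩ := c2
        by_cases c3 : ∃ e, Step a g e
        · by_cases c4 : ∃ gm, Step a (rot (rot fm)) gm
          · by_cases c5 : ∃ h, Step a (rot (rot g)) h
            · obtain ⟨h, hh⟩ := c5
              by_cases c6 : ∃ k, Step a h k
              · obtain ⟨e, he⟩ := c3
                obtain ⟨gm, hgm⟩ := c4
                obtain ⟨k, hk⟩ := c6
                exact absurd ⟨rot (rot e), fm, g, e, gm, h, k, hfm, hgs, he, rfl, hgm, hh, hk⟩ hn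
              · refine Or.inr (Or.inr (Or.inr (Or.inr (Or.inr ?_))))
                rw [hS6]
                exact ⟨h, ⟨hh.2.1, c6⟩, g, hgs, hh⟩
            · refine Or.inr (Or.inr (Or.inr (Or.inr (Or.inl ?_))))
              rw [hS5]
              exact ⟨rot (rot g), ⟨u1 _ (u1 _ hgs.2.1), c5⟩, g, hgs, rfl⟩
          · refine Or.inr (Or.inr (Or.inr (Or.inl ?_)))
            rw [hS4]
            exact ⟨rot (rot fm), ⟨u1 _ (u1 _ hfm.2.1), c4⟩, fm, hfm, rfl⟩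
        · refine Or.inr (Or.inr (Or.inl ?_))
          rw [hS3]
          exact ⟨g, ⟨hgs.2.1, c3⟩, hgs⟩
      · refine Or.inr (Or.inl ?_)
        rw [hS2]
        exact ⟨d, ⟨hg, c2⟩, rfl⟩
    · refine Or.inl ?_
      rw [hS1]
      exact ⟨rot d, ⟨u1 _ hg, c1⟩, rfl⟩
  have h0 := Set.ncard_le_ncard hsub (Set.toFinite _)
  have h1 := Set.ncard_union_le S1 (S2 ∪ (S3 ∪ (S4 ∪ (S5 ∪ S6))))
  have h2 := Set.ncard_union_le S2 (S3 ∪ (S4 ∪ (S5 ∪ S6)))
  have h3 := Set.ncard_union_le S3 (S4 ∪ (S5 ∪ S6))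
  have h4 := Set.ncard_union_le S4 (S5 ∪ S6)
  have h5 := Set.ncard_union_le S5 S6
  omega

end Pool.Agent.GTO.H27
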